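import Pool.Agent.Q253.M8.Main
import Pool.Agent.TH497.BF.Conf2
import Pool.Agent.TH455.TFA.Core

/-!
# Flows with values in a set `A` satisfying the finite facts: matching number at most eight
-/

set_option autoImplicit false
set_option linter.unusedSectionVars false

namespace Pool.Agent.Q253.M8.BF

open Finset Pool.Agent.TH676.A Pool.Agent.TH497.BF Pool.Agent.Q253.M8
open Pool.Agent.TH499.TF (Joins Ad)
open Pool.Agent.Q253.VC (gr deg_inc inc mem_inc)

variable {V E : Type} [Fintype V] [DecidableEq V] [Fintype E] [DecidableEq E]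
variable {Γ : Type} [AddCommGroup Γ] {A : Γ → Prop}

theorem mc_mt : MC (V := V) (E := E) Mt where
  del := by
    intro s d e h _ M hM hM'
    have hne : ∀ f ∈ M, f ≠ e := by
      rintro f hf rfl
      have := hM f hf
      unfold TH676.A.lp at this
      rw [if_pos (mem_singleton_self f)] at this
      exact this rfl
    have hlp : ∀ f ∈ M, TH676.A.lp s d {e} f = d f := by
      intro f hf
      unfold TH676.A.lp
      rw [if_neg (by simpa using hne f hf)]
    refine h M (fun f hf => by have := hM f hf; rwa [hlp f hf] at this) fun f hf g hg hfg => ?_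
    have := hM' f hf g hg hfg
    rwa [hlp f hf, hlp g hg] at this
  con := by
    intro s d e h _ M hM hM'
    refine h M (fun f hf hl => hM f hf (congrArg _ hl)) (fun f hf g hg hfg => ?_)
    obtain ⟨h1, h2, h3, h4⟩ := hM' f hf g hg hfg
    exact ⟨fun hl => h1 (congrArg (TH676.A.ctr (s e) (d e)) hl),
      fun hl => h2 (congrArg (TH676.A.ctr (s e) (d e)) hl),
      fun hl => h3 (congrArg (TH676.A.ctr (s e) (d e)) hl),
      fun hl => h4 (congrArg (TH676.A.ctr (s e) (d e)) hl)⟩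

/-- **There is no cut vertex.** -/
theorem nocut {s d : E → V} (h : MinCx A s d) {w : V} {O : Finset V} (_hw : w ∉ O)
    (hcl : ∀ e, s e ≠ d e → (s e ∈ O → d e ∈ O ∨ d e = w) ∧ (d e ∈ O → s e ∈ O ∨ s e = w))
    {e1 e2 : E} (he1 : s e1 ≠ d e1) (h1 : s e1 ∈ O ∨ d e1 ∈ O) (he2 : s e2 ≠ d e2)
    (h2 : s e2 ∉ O) (h2' : d e2 ∉ O) : False := by
  set D1 : Finset E := univ.filter fun e => s e ∈ O ∨ d e ∈ O with hD1
  set D2 : Finset E := univ.filter fun e => ¬ (s e ∈ O ∨ d e ∈ O) with hD2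
  have m1 : ∀ e, e ∈ D1 ↔ (s e ∈ O ∨ d e ∈ O) := fun e => by rw [hD1]; simp
  have m2 : ∀ e, e ∈ D2 ↔ ¬ (s e ∈ O ∨ d e ∈ O) := fun e => by rw [hD2]; simp
  have b2 : Br s d D2 ∅ := by
    intro Y _ hc
    refine h.br ((Y ∩ O) ∪ (if w ∈ Y then univ \ O else ∅)) (disjoint_empty_right _) ?_
    rw [sdiff_empty, ← hc]
    congr 1
    ext e
    rw [mem_sdiff, mem_crs, mem_crs, m2]
    have hin : ∀ x, x ∈ O → (x ∈ (Y ∩ O) ∪ (if w ∈ Y then univ \ O else ∅) ↔ x ∈ Y) := by
      intro x hx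
      by_cases hwY : w ∈ Y <;> simp [hwY, hx]
    have hout : ∀ x, x ∉ O → (x ∈ (Y ∩ O) ∪ (if w ∈ Y then univ \ O else ∅) ↔ w ∈ Y) := by
      intro x hx
      by_cases hwY : w ∈ Y <;> simp [hwY, hx]
    by_cases hl : s e = d e
    · rw [hl]
      simp
    · obtain ⟨c1, c2⟩ := hcl e hl
      by_cases hs : s e ∈ O <;> by_cases hd : d e ∈ O
      · rw [hin _ hs, hin _ hd]
        simp [hs]
      · rw [hin _ hs, hout _ hd, (c1 hs).resolve_left hd]
        simp [hs]
      · rw [hout _ hs, hin _ hd, (c2 hd).resolve_left hs]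
        simp [hd]
      · rw [hout _ hs, hout _ hd]
        simp [hs, hd]
  have b1 : Br s d D1 ∅ := by
    intro Y _ hc
    refine h.br ((Y \ O) ∪ (if w ∈ Y then O else ∅)) (disjoint_empty_right _) ?_
    rw [sdiff_empty, ← hc]
    congr 1
    ext e
    rw [mem_sdiff, mem_crs, mem_crs, m1]
    have hin : ∀ x, x ∈ O → (x ∈ (Y \ O) ∪ (if w ∈ Y then O else ∅) ↔ w ∈ Y) := by
      intro x hx
      by_cases hwY : w ∈ Y <;> simp [hwY, hx]
    have hout : ∀ x, x ∉ O → (x ∈ (Y \ O) ∪ (if w ∈ Y then O else ∅) ↔ x ∈ Y) := by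
      intro x hx
      by_cases hwY : w ∈ Y <;> simp [hwY, hx]
    by_cases hl : s e = d e
    · rw [hl]
      simp
    · obtain ⟨c1, c2⟩ := hcl e hl
      by_cases hs : s e ∈ O <;> by_cases hd : d e ∈ O
      · rw [hin _ hs, hin _ hd]
        simp [hs]
      · rw [hin _ hs, hout _ hd, (c1 hs).resolve_left hd]
        simp [hs]
      · rw [hout _ hs, hin _ hd, (c2 hd).resolve_left hs]
        simp [hd]
      · rw [hout _ hs, hout _ hd]
        simp [hs, hd]
  obtain ⟨f1, a1, z1, n1⟩ := h.crit D2 ∅ (disjoint_empty_right _)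
    ⟨e2, by rw [union_empty, m2]; tauto, he2⟩ b2
  obtain ⟨f2, a2, z2, n2⟩ := h.crit D1 ∅ (disjoint_empty_right _)
    ⟨e1, by rw [union_empty, m1]; exact h1, he1⟩ b1
  refine h.nf ⟨f1 + f2, fun v => ?_, fun e he => absurd he (notMem_empty _), fun e _ _ => ?_⟩
  · rw [bd_add, a1, a2, add_zero]
  · by_cases he : s e ∈ O ∨ d e ∈ O
    · rw [Pi.add_apply, z2 e ((m1 e).2 he), add_zero]
      exact n1 e (fun h' => (m2 e).1 h' he) (notMem_empty _)
    · rw [Pi.add_apply, z1 e ((m2 e).2 he), zero_add]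
      exact n2 e (fun h' => he ((m1 e).1 h')) (notMem_empty _)

theorem smp (hF : Facts A) {s d : E → V} (h : MinCx A s d) :
    Pool.Agent.TH395.P5.Smp s d :=
  fun _ _ _ _ hne h1 h2 => par hF h hne h1 h2

theorem nisL {s d : E → V} {e : E} {x y : V} (h : Joins s d e x y) (hne : x ≠ y) : Nis s d x := by
  refine ⟨e, h.ne_loop hne, ?_⟩
  rcases h with ⟨a, b⟩ | ⟨a, b⟩
  · exact Or.inl a
  · exact Or.inr b

theorem dat (hF : Facts A) {s d : E → V} (hM : MinCx A s d) : Dat (gr s d) (ni s d) where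
  mem := fun x y h => mem_ni.2 ⟨y, h⟩
  three := by
    intro x hx
    obtain ⟨y, hne, e, he⟩ := mem_ni.1 hx
    have hS := smp hF hM
    have h0 := deg_inc hS x
    rw [SimpleGraph.card_neighborFinset_eq_degree, h0]
    have h1 := cut3 hF.alg hM (Y := {x}) (mem_singleton_self x) (y := y)
      (by simpa using hne.symm) (nisL he hne) (nisL (Or.symm he) hne.symm)
    refine h1.trans (card_le_card fun e' he' => ?_)
    rw [mem_crs, mem_singleton, mem_singleton] at he'
    rw [mem_inc]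
    refine ⟨fun h => he' (by rw [h]), ?_⟩
    tauto
  tri := by
    rintro a b c ⟨h1, e1⟩ ⟨h2, e2⟩ ⟨h3, e3⟩
    exact (g5 hF hM).tri a b c ⟨h1, e1⟩ ⟨h2, e2⟩ ⟨h3, e3⟩
  quad := by
    rintro a b c q hac hbq ⟨h1, e1⟩ ⟨h2, e2⟩ ⟨h3, e3⟩ ⟨h4, e4⟩
    exact (g5 hF hM).sq a b c q hac hbq ⟨h1, e1⟩ ⟨h2, e2⟩ ⟨h3, e3⟩ ⟨h4, e4⟩
  conn := by
    rintro O hOT ⟨x, hx⟩ ⟨z, hz⟩ hcl
    obtain ⟨hz, hzO⟩ := mem_sdiff.1 hz
    obtain ⟨y, hne, e, he⟩ := mem_ni.1 (hOT hx)
    obtain ⟨y', hne', e', he'⟩ := mem_ni.1 hz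
    have h1 := cut3 hF.alg hM (Y := O) hx hzO (nisL he hne) (nisL he' hne')
    have h2 : crs s d O = ∅ := by
      rw [eq_empty_iff_forall_notMem]
      intro f hf
      rw [mem_crs] at hf
      have hl : s f ≠ d f := fun hl => hf (by rw [hl])
      apply hf
      constructor
      · intro h3
        exact hcl _ h3 _ ⟨hl, f, Or.inl ⟨rfl, rfl⟩⟩
      · intro h3
        exact hcl _ h3 _ ⟨hl.symm, f, Or.inr ⟨rfl, rfl⟩⟩
    rw [h2, card_empty] at h1
    omega
  cutv := by
    rintro w O hOT hw ⟨x, hx⟩ ⟨z, hz⟩ hcl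
    obtain ⟨hzw, hz⟩ := mem_erase.1 hz
    obtain ⟨hz, hzO⟩ := mem_sdiff.1 hz
    obtain ⟨y, hne, e, he⟩ := mem_ni.1 (hOT hx)
    obtain ⟨y', hne', e', he'⟩ := mem_ni.1 hz
    have hy' : y' ∉ O := by
      intro h3
      rcases hcl y' h3 z ⟨hne'.symm, e', Or.symm he'⟩ with h4 | h4
      · exact hzO h4
      · exact hzw h4
    refine nocut hM hw ?_ (e1 := e) (e2 := e') ?_ ?_ ?_ ?_ ?_
    · intro f hf
      exact ⟨fun h3 => hcl _ h3 _ ⟨hf, f, Or.inl ⟨rfl, rfl⟩⟩,
        fun h3 => hcl _ h3 _ ⟨hf.symm, f, Or.inr ⟨rfl, rfl⟩⟩⟩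
    · rcases he with ⟨a, b⟩ | ⟨a, b⟩ <;> rw [a, b]
      · exact hne
      · exact hne.symm
    · rcases he with ⟨a, b⟩ | ⟨a, b⟩
      · rw [a]; exact Or.inl hx
      · rw [b]; exact Or.inr hx
    · rcases he' with ⟨a, b⟩ | ⟨a, b⟩ <;> rw [a, b]
      · exact hne'
      · exact hne'.symm
    · rcases he' with ⟨a, b⟩ | ⟨a, b⟩ <;> rw [a]
      · exact hzO
      · exact hy'
    · rcases he' with ⟨a, b⟩ | ⟨a, b⟩ <;> rw [b]
      · exact hy'
      · exact hzO

/-! ### Flows from nowhere-zero 4-flows -/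

/-- the map from the four-group -/
def ψ (p q : Γ) (x : ZMod 2 × ZMod 2) : Γ := (if x.1 = 0 then 0 else p) + (if x.2 = 0 then 0 else q)

theorem ψ_add (hE : Ex2 Γ) (p q : Γ) (x y : ZMod 2 × ZMod 2) :
    ψ p q (x + y) = ψ p q x + ψ p q y := by
  have h2 : ∀ a b : ZMod 2, ∀ r : Γ, (if a + b = 0 then 0 else r) =
      (if a = 0 then 0 else r) + (if b = 0 then 0 else r) := by
    intro a b r
    have ha : a = 0 ∨ a = 1 := by revert a; decide
    have hb : b = 0 ∨ b = 1 := by revert b; decide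
    have h11 : (1 : ZMod 2) + 1 = 0 := by decide
    rcases ha with rfl | rfl <;> rcases hb with rfl | rfl
    · simp
    · simp
    · simp
    · rw [h11, if_pos rfl, if_neg (by decide), hE]
  unfold ψ
  rw [Prod.fst_add, Prod.snd_add, h2, h2]
  abel

theorem flow_of_nz (hF : Facts A) {s d : E → V} (h : TH362.TF.NZ s d univ) :
    FlowOn A s d ∅ ∅ := by
  obtain ⟨f, h1, h2⟩ := h
  obtain ⟨t, ht, _⟩ := hF.hp
  obtain ⟨p, hp, hp', _⟩ := hF.s4 (t 0) (t 0) (ht 0) (ht 0)
  have hE := hF.alg.two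
  refine ⟨fun e => ψ p (t 0) (f e), fun v => ?_, fun e he => absurd he (notMem_empty _),
    fun e _ _ => ?_⟩
  · have h3 : ψ p (t 0) (∑ e, ((if s e = v then f e else 0) + (if d e = v then f e else 0))) = 0 := by
      rw [h2 v]
      simp [ψ]
    have h4 : ψ p (t 0) 0 = 0 := by simp [ψ]
    let φ : (ZMod 2 × ZMod 2) →+ Γ := ⟨⟨ψ p (t 0), h4⟩, ψ_add hE p (t 0)⟩
    have h5 : ∀ x, φ x = ψ p (t 0) x := fun _ => rfl
    rw [← h5, map_sum] at h3
    unfold bd
    refine Eq.trans (sum_congr rfl fun e _ => ?_) h3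
    rw [map_add, apply_ite φ, apply_ite φ, map_zero, h5]
  · have h3 := h1 e (mem_univ e)
    have h4 : ∀ x : ZMod 2 × ZMod 2, x ≠ 0 → x = (0, 1) ∨ x = (1, 0) ∨ x = (1, 1) := by decide
    rcases h4 _ h3 with h | h | h
    · show A (ψ p (t 0) (f e))
      rw [h]
      simpa [ψ] using ht 0
    · show A (ψ p (t 0) (f e))
      rw [h]
      simpa [ψ] using hp
    · show A (ψ p (t 0) (f e))
      rw [h]
      simpa [ψ] using hp'

/-! ### The Petersen graph -/

/-- the isomorphism from the labels of the configuration to the classes -/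
def σ : Fin 10 → Fin 10 := ![0, 1, 4, 5, 2, 6, 3, 8, 9, 7]

theorem no_pq (hF : Facts A) {s d : E → V} (hM : MinCx A s d) (h : TH362.TF.PQ s d univ) :
    False := by
  obtain ⟨κ, hκ⟩ := h
  -- a vertex of every class which is not isolated
  have hc : ∀ k : Fin 10, ∃ x : V, κ x = k ∧ Nis s d x := by
    intro k
    obtain ⟨e, _, he⟩ := hκ.2 k (TH362.TF.nb k 0) (TH362.TF.Contr.padj_nb k 0)
    have h4 := TH362.TF.Contr.nb_ne k 0
    have hl : s e ≠ d e := by
      intro hl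
      rcases he with ⟨a, b⟩ | ⟨a, b⟩
      · rw [hl, b] at a
        exact h4 a
      · rw [hl, b] at a
        exact h4 a.symm
    rcases he with ⟨a, b⟩ | ⟨a, b⟩
    · exact ⟨s e, a, e, hl, Or.inl rfl⟩
    · exact ⟨d e, b, e, hl, Or.inr rfl⟩
  choose c hcκ hcn using hc
  have huniq : ∀ x, Nis s d x → x = c (κ x) := by
    intro x hx
    by_contra hne
    obtain ⟨k, hk⟩ : ∃ k, κ x = k := ⟨_, rfl⟩
    rw [hk] at hne
    have h3 : (crs s d (univ.filter fun v => κ v = k)).card = 3 := by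
      rw [← hκ.1 k]
      congr 1
      ext e
      rw [mem_crs]
      unfold TH362.TF.cut
      simp [decide_eq_decide]
    have h01 : ∀ k : Fin 10, k + 1 ≠ k ∧ k + 2 ≠ k ∧ k + 1 ≠ k + 2 := by decide
    obtain ⟨n1, n2, n3⟩ := h01 k
    have h4 := cut4 hF.alg hM (Y := univ.filter fun v => κ v = k) (x := x) (x2 := c k)
      (y := c (k + 1)) (y2 := c (k + 2)) (by simpa using hk) (by simpa using hcκ k) hne
      (by simpa [hcκ] using n1) (by simpa [hcκ] using n2)
      (fun hh => n3 (by rw [← hcκ (k + 1), ← hcκ (k + 2), hh])) hx (hcn _) (hcn _) (hcn _)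
    omega
  have hσ : Function.Injective σ := by decide
  have hpad : ∀ k, TH362.TF.padj (σ (TH499.TF.pp k)) (σ (TH499.TF.pq k)) = true := by decide
  have hpad' : ∀ i j, TH362.TF.padj (σ i) (σ j) = true → ∃ k, (TH499.TF.pp k = i ∧ TH499.TF.pq k = j) ∨
      (TH499.TF.pq k = i ∧ TH499.TF.pp k = j) := by decide
  have hσs : ∀ k, ∃ i, σ i = k := by decide
  have hl : Function.Injective (fun i => c (σ i)) := by
    intro i j hij
    have := congrArg κ hij
    simp only [hcκ] at this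
    exact hσ this
  have hend : ∀ e, s e ≠ d e → s e = c (κ (s e)) ∧ d e = c (κ (d e)) :=
    fun e he => ⟨huniq _ ⟨e, he, Or.inl rfl⟩, huniq _ ⟨e, he, Or.inr rfl⟩⟩
  refine config1 hF hM TH499.TF.pp TH499.TF.pq (by decide) hl ?_ 0 univ ?_ ?_
  · intro k
    obtain ⟨e, _, he⟩ := hκ.2 _ _ (hpad k)
    have hne := TH362.TF.Contr.padj_ne _ _ (hpad k)
    have hl' : s e ≠ d e := by
      intro hl'
      rcases he with ⟨a, b⟩ | ⟨a, b⟩
      · exact hne (by rw [← a, ← b, hl'])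
      · exact hne (by rw [← a, ← b, hl'])
    obtain ⟨e1, e2⟩ := hend e hl'
    refine ⟨fun hh => hne ?_, e, ?_⟩
    · have := congrArg κ hh
      simpa only [hcκ] using this
    · rcases he with ⟨a, b⟩ | ⟨a, b⟩
      · left
        rw [a] at e1
        rw [b] at e2
        exact ⟨e1, e2⟩
      · right
        rw [a] at e1
        rw [b] at e2
        exact ⟨e1, e2⟩
  · intro i _ y hy
    obtain ⟨hne, e, he⟩ := hy
    have hy1 : y = c (κ y) := huniq y (nisL (Or.symm he) hne.symm)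
    have hk : σ i ≠ κ y := by
      intro hh
      apply hne
      rw [hy1, ← hh]
    have h5 : TH362.TF.padj (σ i) (κ y) = true := by
      refine TH362.TF.Contr.padj_of_ne s d κ hκ e _ _ hk ?_
      rcases he with ⟨a, b⟩ | ⟨a, b⟩
      · left
        rw [a, b]
        exact ⟨hcκ _, rfl⟩
      · right
        rw [a, b]
        exact ⟨rfl, hcκ _⟩
    obtain ⟨j, hj⟩ := hσs (κ y)
    rw [← hj] at h5
    obtain ⟨k, hk⟩ := hpad' i j h5
    refine ⟨k, ?_⟩
    rcases hk with ⟨a, b⟩ | ⟨a, b⟩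
    · left
      refine ⟨a, ?_⟩
      show y = c (σ _)
      rw [b, hj]
      exact hy1
    · right
      refine ⟨a, ?_⟩
      show y = c (σ _)
      rw [b, hj]
      exact hy1
  · intro r _ _ rI
    obtain ⟨t, t1, t2⟩ := hF.hp
    exact ⟨t, t1, fun i => (t2 i).trans (rI i (mem_univ i)).symm⟩

theorem n1 {s d : E → V} (h : Br s d ∅ ∅) : TH362.TF.N1 s d univ := by
  intro x hx
  refine h (univ.filter (fun v => x v = true)) (disjoint_empty_right _) ?_
  rw [sdiff_empty, ← hx]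
  congr 1
  ext e
  rw [mem_crs]
  unfold TH362.TF.cut
  simp only [mem_filter, mem_univ, true_and]
  cases x (s e) <;> cases x (d e) <;> simp

/-- **Main theorem.** -/
theorem flow_of_mt (hF : Facts A) (s d : E → V) (hb : Br s d ∅ ∅) (hc : Mt s d) :
    FlowOn A s d ∅ ∅ := by
  classical
  by_contra hn
  obtain ⟨s', d', hm', hM⟩ := exists_minCx hF.alg.two mc_mt s d hc hb hn
  have hS := smp hF hM
  by_cases h : (univ.filter fun v => Odd ((gr s' d').degree v)).card ≤ 16
  · have h1 := n1 hM.br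
    rcases TH362.TF.main16 s' d' univ h1 (by
        refine le_trans (card_le_card fun v hv => ?_) h
        have := (mem_filter.1 hv).2
        exact mem_filter.2 ⟨mem_univ _, (VC.odd_deg hS v).1 this⟩) with h2 | h2
    · exact hM.nf (flow_of_nz hF h2)
    · exact no_pq hF hM h2
  push Not at h
  have hn : 18 ≤ (ni s' d').card := by
    have h1 : Even (univ.filter fun v => Odd ((gr s' d').degree v)).card :=
      (gr s' d').even_card_odd_degree_vertices
    have h2 : (univ.filter fun v => Odd ((gr s' d').degree v)).card ≤ (ni s' d').card := by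
      refine card_le_card fun v hv => ?_
      obtain ⟨y, hy⟩ := VC.odd_pos (mem_filter.1 hv).2
      exact mem_ni.2 ⟨y, hy⟩
    rw [Nat.even_iff] at h1
    omega
  obtain ⟨W, m, hW, hm⟩ := (dat hF hM).main hn
  have he : ∀ x, ∃ e, x ∈ W → Joins s' d' e x (m x) := by
    intro x
    by_cases hx : x ∈ W
    · obtain ⟨_, e, he⟩ := (hm x hx).2.2
      exact ⟨e, fun _ => he⟩
    · obtain ⟨x0, hx0⟩ : W.Nonempty := by
        rw [← card_pos]
        omega
      obtain ⟨_, e, he⟩ := (hm x0 hx0).2.2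
      exact ⟨e, fun h => absurd h hx⟩
  choose g hg using he
  have hne : ∀ x ∈ W, x ≠ m x := fun x hx => (hm x hx).2.2.ne
  -- the edge determines the pair
  have hends : ∀ x ∈ W, ∀ e, g x = e → (s' e = x ∧ d' e = m x) ∨ (s' e = m x ∧ d' e = x) := by
    rintro x hx e rfl
    exact hg x hx
  have huniq : ∀ x ∈ W, ∀ y ∈ W, (y = x ∨ y = m x) → g x = g y := by
    intro x hx y hy hxy
    have h1 := hg x hx
    have h2 := hg y hy
    rcases hxy with rfl | rfl
    · rfl
    · rw [(hm x hx).2.1] at h2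
      exact hS _ _ _ _ (hne x hx) h1 (Or.symm h2)
  have hcard : 18 ≤ 2 * (W.image g).card := by
    refine hW.trans ?_
    refine card_le_mul_card_image W 2 fun e he => ?_
    obtain ⟨x, hx, hxe⟩ := mem_image.1 he
    refine (card_le_card (t := {x, m x}) fun y hy => ?_).trans card_le_two
    obtain ⟨hy, hye⟩ := mem_filter.1 hy
    have h1 := hends x hx e hxe
    have h2 := hends y hy e hye
    rw [mem_insert, mem_singleton]
    rcases h1 with ⟨a1, a2⟩ | ⟨a1, a2⟩ <;> rcases h2 with ⟨b1, b2⟩ | ⟨b1, b2⟩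
    · exact Or.inl (b1.symm.trans a1)
    · exact Or.inr (b2.symm.trans a2)
    · exact Or.inr (b1.symm.trans a1)
    · exact Or.inl (b2.symm.trans a2)
  have h8 := hm' (W.image g) ?_ ?_
  · omega
  · intro e he
    obtain ⟨x, hx, hxe⟩ := mem_image.1 he
    rcases hends x hx e hxe with ⟨a, b⟩ | ⟨a, b⟩ <;> rw [a, b]
    · exact hne x hx
    · exact (hne x hx).symm
  · intro e he f hf hef
    obtain ⟨x, hx, hxe⟩ := mem_image.1 he
    obtain ⟨y, hy, hyf⟩ := mem_image.1 hf
    have k1 : x ≠ y := fun h => hef (by rw [← hxe, ← hyf, h])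
    have k2 : x ≠ m y := by
      intro h
      exact hef (by rw [← hxe, ← hyf]; exact (huniq y hy x hx (Or.inr h)).symm)
    have k3 : m x ≠ y := by
      intro h
      exact hef (by rw [← hxe, ← hyf]; exact huniq x hx y hy (Or.inr h.symm))
    have k4 : m x ≠ m y := by
      intro h
      have := congrArg m h
      rw [(hm x hx).2.1, (hm y hy).2.1] at this
      exact k1 this
    rcases hends x hx e hxe with ⟨a1, a2⟩ | ⟨a1, a2⟩ <;>
      rcases hends y hy f hyf with ⟨b1, b2⟩ | ⟨b1, b2⟩ <;> rw [a1, a2, b1, b2]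
    · exact ⟨k1, k2, k3, k4⟩
    · exact ⟨k2, k1, k4, k3⟩
    · exact ⟨k3, k4, k1, k2⟩
    · exact ⟨k4, k3, k2, k1⟩

end Pool.Agent.Q253.M8.BF
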