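import Pool.Agent.Q253.M8.BF

/-!
# Flows with values in a set `A` satisfying the finite facts: vertex cover number at most nine
-/

set_option autoImplicit false
set_option linter.unusedSectionVars false

namespace Pool.Agent.Q253.M8.BF

open Finset Pool.Agent.TH676.A Pool.Agent.TH497.BF Pool.Agent.Q253.M8
open Pool.Agent.TH499.TF (Joins Ad)
open Pool.Agent.Q253.VC (gr deg_inc inc mem_inc Cov Hyp)

variable {V E : Type} [Fintype V] [DecidableEq V] [Fintype E] [DecidableEq E]
variable {Γ : Type} [AddCommGroup Γ] {A : Γ → Prop}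

theorem mc_cov : MC (V := V) (E := E) Cov where
  del := by
    rintro s d e ⟨X, hX, h⟩ _
    refine ⟨X, hX, fun e' he' => ?_⟩
    unfold TH676.A.lp at he' ⊢
    by_cases h1 : e' ∈ ({e} : Finset E)
    · rw [if_pos h1] at he'
      exact absurd rfl he'
    · rw [if_neg h1] at he' ⊢
      exact h e' he'
  con := by
    rintro s d e ⟨X, hX, h⟩ _
    refine ⟨X.image (TH676.A.ctr (s e) (d e)), card_image_le.trans hX, fun e' he' => ?_⟩
    rcases h e' (fun h1 => he' (congrArg (TH676.A.ctr (s e) (d e)) h1)) with h1 | h1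
    · exact Or.inl (mem_image_of_mem _ h1)
    · exact Or.inr (mem_image_of_mem _ h1)

theorem hyp (hF : Facts A) {s d : E → V} (hM : MinCx A s d) {X : Finset V}
    (hX : ∀ e, s e ≠ d e → s e ∈ X ∨ d e ∈ X) : Hyp (gr s d) X where
  cov := by
    rintro x y ⟨hne, e, he⟩
    rcases he with ⟨a, b⟩ | ⟨a, b⟩
    · have := hX e (by rw [a, b]; exact hne)
      rw [a, b] at this
      exact this
    · have := hX e (by rw [a, b]; exact hne.symm)
      rw [a, b] at this
      exact this.symm
  three := by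
    intro x y hxy
    have h1 := (dat hF hM).three x (mem_ni.2 ⟨y, hxy⟩)
    rwa [SimpleGraph.card_neighborFinset_eq_degree] at h1
  tri := (dat hF hM).tri
  quad := (dat hF hM).quad

theorem nz_of_flow {s d : E → V} (h : TH462.T4.FlowOn s d ∅ ∅) : TH362.TF.NZ s d univ := by
  obtain ⟨f, h1, _, h2⟩ := h
  exact ⟨f, fun e _ => h2 e (notMem_empty _) (notMem_empty _), fun v => h1 v⟩

/-- **Main theorem.** -/
theorem flow_of_cov (hF : Facts A) (s d : E → V) (hb : Br s d ∅ ∅) (hc : Cov s d) :
    FlowOn A s d ∅ ∅ := by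
  classical
  by_contra hn
  obtain ⟨s', d', ⟨X, hX, hXc⟩, hM⟩ := exists_minCx hF.alg.two mc_cov s d hc hb hn
  have hS := smp hF hM
  rcases (hyp hF hM hXc).main hX with h | ⟨h1, h2⟩
  · have h1 := n1 hM.br
    rcases TH362.TF.main16 s' d' univ h1 (by
        refine le_trans (card_le_card fun v hv => ?_) h
        have := (mem_filter.1 hv).2
        exact mem_filter.2 ⟨mem_univ _, (VC.odd_deg hS v).1 this⟩) with h2 | h2
    · exact hM.nf (flow_of_nz hF h2)
    · exact no_pq hF hM h2
  · exact hM.nf (flow_of_nz hF (nz_of_flow (VC.flow_bip hS X hXc h1 h2)))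

end Pool.Agent.Q253.M8.BF
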