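import Pool.Agent.H168DD.TB

/-!
# Nine disjoint edges in a two-connected graph of girth five with at least 18 vertices
-/

set_option autoImplicit false
set_option linter.unusedSectionVars false

namespace Pool.Agent.Q253.M8

open Finset

variable {V : Type} [Fintype V] [DecidableEq V] (G : SimpleGraph V) [DecidableRel G.Adj]

/-- the assumptions; `T` is the set of the vertices which are not isolated -/
structure Dat (T : Finset V) : Prop where
  mem : ∀ x y, G.Adj x y → x ∈ T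
  three : ∀ x ∈ T, 3 ≤ (G.neighborFinset x).card
  tri : ∀ a b c, G.Adj a b → G.Adj b c → G.Adj c a → False
  quad : ∀ a b c d, a ≠ c → b ≠ d → G.Adj a b → G.Adj b c → G.Adj c d → G.Adj d a → False
  conn : ∀ O ⊆ T, O.Nonempty → (T \ O).Nonempty →
    (∀ x ∈ O, ∀ y, G.Adj x y → y ∈ O) → False
  cutv : ∀ w, ∀ O ⊆ T, w ∉ O → O.Nonempty → ((T \ O).erase w).Nonempty →
    (∀ x ∈ O, ∀ y, G.Adj x y → y ∈ O ∨ y = w) → False

variable {G} {T : Finset V}

/-- the ordered pairs of neighbours in `A` -/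
def Q (G : SimpleGraph V) [DecidableRel G.Adj] (A : Finset V) (v : V) : Finset (V × V) :=
  (G.neighborFinset v ∩ A).offDiag

theorem Dat.Q_disj (h : Dat G T) (A : Finset V) {u v : V} (huv : u ≠ v) :
    Disjoint (Q G A u) (Q G A v) := by
  rw [disjoint_left]
  rintro ⟨p, q⟩ h1 h2
  unfold Q at h1 h2
  rw [mem_offDiag, mem_inter, mem_inter, SimpleGraph.mem_neighborFinset,
    SimpleGraph.mem_neighborFinset] at h1 h2
  exact h.quad u p v q huv h1.2.2 h1.1.1 h2.1.1.symm h2.2.1.1 h1.2.1.1.symm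

theorem Q_card (A : Finset V) {v : V} {k : ℕ} (hk : k ≤ (G.neighborFinset v ∩ A).card) :
    k * (k - 1) ≤ (Q G A v).card := by
  unfold Q
  rw [offDiag_card, ← Nat.mul_sub_one]
  exact Nat.mul_le_mul hk (Nat.sub_le_sub_right hk 1)

theorem Dat.Q_sum (h : Dat G T) (A W : Finset V) :
    ∑ v ∈ W, (Q G A v).card ≤ A.card * (A.card - 1) := by
  rw [← card_biUnion fun u _ v _ huv => h.Q_disj A huv]
  have h1 : W.biUnion (Q G A) ⊆ A.offDiag := by
    intro p hp
    obtain ⟨v, _, hp⟩ := mem_biUnion.1 hp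
    unfold Q at hp
    rw [mem_offDiag] at hp ⊢
    exact ⟨(mem_inter.1 hp.1).2, (mem_inter.1 hp.2.1).2, hp.2.2⟩
  refine (card_le_card h1).trans ?_
  rw [offDiag_card, ← Nat.mul_sub_one]

/-- closed sets -/
def Cl (G : SimpleGraph V) (T A O : Finset V) : Prop :=
  ∀ x ∈ O, ∀ y ∈ T, G.Adj x y → y ∈ O ∨ y ∈ A

theorem Dat.nb_sub (h : Dat G T) {A O : Finset V} (hO : Cl G T A O) {x : V} (hx : x ∈ O) :
    G.neighborFinset x ⊆ O ∪ A := by
  intro y hy
  rw [SimpleGraph.mem_neighborFinset] at hy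
  exact mem_union.2 (hO x hx y (h.mem _ _ hy.symm) hy)

theorem Dat.nbA (h : Dat G T) {A O : Finset V} (hOT : O ⊆ T) (hO : Cl G T A O) {x : V}
    (hx : x ∈ O) : 3 ≤ (G.neighborFinset x ∩ O).card + (G.neighborFinset x ∩ A).card := by
  refine (h.three x (hOT hx)).trans ?_
  refine (card_le_card ?_).trans (card_union_le _ _)
  intro y hy
  rcases mem_union.1 (h.nb_sub hO hx hy) with h1 | h1
  · exact mem_union_left _ (mem_inter.2 ⟨hy, h1⟩)
  · exact mem_union_right _ (mem_inter.2 ⟨hy, h1⟩)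

theorem Dat.one (h : Dat G T) {A O : Finset V} (hOT : O ⊆ T) (hO : Cl G T A O)
    (h1 : O.card = 1) : 6 ≤ ∑ v ∈ O, (Q G A v).card := by
  obtain ⟨x, rfl⟩ := card_eq_one.1 h1
  rw [sum_singleton]
  have h2 := h.nbA hOT hO (mem_singleton_self x)
  have h3 : G.neighborFinset x ∩ {x} = ∅ := by
    rw [eq_empty_iff_forall_notMem]
    intro y hy
    obtain ⟨h4, h5⟩ := mem_inter.1 hy
    rw [mem_singleton] at h5
    subst h5
    rw [SimpleGraph.mem_neighborFinset] at h4
    exact h4.ne rfl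
  rw [h3, card_empty, zero_add] at h2
  exact Q_card A h2

theorem Dat.three' (h : Dat G T) {A O : Finset V} (hOT : O ⊆ T) (hO : Cl G T A O)
    (h1 : O.card = 3) : 4 ≤ ∑ v ∈ O, (Q G A v).card := by
  -- at most one vertex has fewer than two neighbours in `A`
  have h2 : (O.filter fun v => ¬ 2 ≤ (G.neighborFinset v ∩ A).card).card ≤ 1 := by
    rw [card_le_one]
    intro u hu v hv
    by_contra huv
    obtain ⟨hu, hu'⟩ := mem_filter.1 hu
    obtain ⟨hv, hv'⟩ := mem_filter.1 hv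
    have key : ∀ u ∈ O, ¬ 2 ≤ (G.neighborFinset u ∩ A).card → ∀ y ∈ O, y ≠ u → G.Adj u y := by
      intro u hu hu' y hy hyu
      have h3 := h.nbA hOT hO hu
      have h4 : G.neighborFinset u ∩ O ⊆ O.erase u := by
        intro z hz
        obtain ⟨h5, h6⟩ := mem_inter.1 hz
        rw [SimpleGraph.mem_neighborFinset] at h5
        exact mem_erase.2 ⟨h5.ne', h6⟩
      have h5 : (O.erase u).card = 2 := by rw [card_erase_of_mem hu, h1]
      have h6 : G.neighborFinset u ∩ O = O.erase u := eq_of_subset_of_card_le h4 (by omega)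
      have h7 : y ∈ G.neighborFinset u ∩ O := by
        rw [h6]
        exact mem_erase.2 ⟨hyu, hy⟩
      exact (SimpleGraph.mem_neighborFinset _ _ _).1 (mem_inter.1 h7).1
    obtain ⟨w, hw⟩ : ((O.erase u).erase v).Nonempty := by
      rw [← card_pos, card_erase_of_mem (mem_erase.2 ⟨Ne.symm huv, hv⟩), card_erase_of_mem hu, h1]
      norm_num
    obtain ⟨hwv, hw⟩ := mem_erase.1 hw
    obtain ⟨hwu, hw⟩ := mem_erase.1 hw
    exact h.tri u v w (key u hu hu' v hv (Ne.symm huv)) (key v hv hv' w hw hwv)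
      (key u hu hu' w hw hwu).symm
  have h3 := card_filter_add_card_filter_not (s := O) (fun v => 2 ≤ (G.neighborFinset v ∩ A).card)
  have h4 : 2 ≤ (O.filter fun v => 2 ≤ (G.neighborFinset v ∩ A).card).card := by omega
  calc 4 ≤ (O.filter fun v => 2 ≤ (G.neighborFinset v ∩ A).card).card * 2 := by omega
    _ ≤ ∑ v ∈ O.filter (fun v => 2 ≤ (G.neighborFinset v ∩ A).card), (Q G A v).card := by
        rw [← smul_eq_mul]
        exact card_nsmul_le_sum _ _ _ fun v hv => Q_card A (mem_filter.1 hv).2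
    _ ≤ _ := sum_le_sum_of_subset (filter_subset _ _)

/-- the arithmetic of the counting -/
theorem arith {a c0 c1 c2 : ℕ} (h1 : a + c1 + 2 * c2 ≤ 8) (h2 : a + 2 ≤ c0 + c1 + c2)
    (h3 : 6 * c0 + 4 * c1 ≤ a * (a - 1)) : a ≤ 1 := by
  by_contra h
  have h4 : a ≤ 8 := by omega
  interval_cases a <;> omega

/-- **The counting.** -/
theorem Dat.core (h : Dat G T) (hn : 18 ≤ T.card) {A : Finset V} {F : Finset (Finset V)}
    (hA : A ⊆ T) (hodd : ∀ O ∈ F, Odd O.card)
    (hdis : ∀ O ∈ F, ∀ O' ∈ F, O ≠ O' → Disjoint O O') (hsub : ∀ O ∈ F, O ⊆ T \ A)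
    (hcl : ∀ O ∈ F, Cl G T A O) (hF : A.card + T.card ≤ F.card + 16) : False := by
  classical
  have hOT : ∀ O ∈ F, O ⊆ T := fun O hO => (hsub O hO).trans sdiff_subset
  -- the sum of the sizes
  have s1 : A.card + ∑ O ∈ F, O.card ≤ T.card := by
    have e1 : (F.biUnion id).card = ∑ O ∈ F, O.card :=
      card_biUnion fun O hO O' hO' hne => hdis O hO O' hO' hne
    rw [← e1, ← card_union_of_disjoint]
    · refine card_le_card (union_subset hA ?_)
      intro x hx
      obtain ⟨O, hO, hx⟩ := mem_biUnion.1 hx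
      exact hOT O hO hx
    · rw [disjoint_left]
      intro x hx hx'
      obtain ⟨O, hO, hx'⟩ := mem_biUnion.1 hx'
      exact (mem_sdiff.1 (hsub O hO hx')).2 hx
  -- the three kinds of sets
  set F1 := F.filter fun O => O.card = 1 with hF1
  set F2 := (F.filter fun O => ¬ O.card = 1).filter fun O => O.card = 3 with hF2
  set F3 := (F.filter fun O => ¬ O.card = 1).filter fun O => ¬ O.card = 3 with hF3
  have c1 : F1.card + (F2.card + F3.card) = F.card := by
    rw [hF2, hF3, card_filter_add_card_filter_not, hF1, card_filter_add_card_filter_not]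
  have c2 : ∀ f : Finset V → ℕ, ∑ O ∈ F, f O = ∑ O ∈ F1, f O + (∑ O ∈ F2, f O + ∑ O ∈ F3, f O) := by
    intro f
    rw [hF2, hF3, sum_filter_add_sum_filter_not, hF1, sum_filter_add_sum_filter_not]
  have m1 : ∀ O ∈ F1, O ∈ F ∧ O.card = 1 := fun O hO => mem_filter.1 hO
  have m2 : ∀ O ∈ F2, O ∈ F ∧ O.card = 3 := fun O hO =>
    ⟨(mem_filter.1 (mem_filter.1 hO).1).1, (mem_filter.1 hO).2⟩
  have m3 : ∀ O ∈ F3, O ∈ F ∧ 5 ≤ O.card := by
    intro O hO
    obtain ⟨h1, h2⟩ := mem_filter.1 hO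
    obtain ⟨h3, h4⟩ := mem_filter.1 h1
    refine ⟨h3, ?_⟩
    obtain ⟨k, hk⟩ := hodd O h3
    omega
  have s2 : F1.card * 1 + (F2.card * 3 + F3.card * 5) ≤ ∑ O ∈ F, O.card := by
    rw [c2]
    refine add_le_add ?_ (add_le_add ?_ ?_)
    · rw [← smul_eq_mul]
      exact card_nsmul_le_sum _ _ _ fun O hO => (m1 O hO).2.ge
    · rw [← smul_eq_mul]
      exact card_nsmul_le_sum _ _ _ fun O hO => (m2 O hO).2.ge
    · rw [← smul_eq_mul]
      exact card_nsmul_le_sum _ _ _ fun O hO => (m3 O hO).2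
  -- the pairs
  have s3 : F1.card * 6 + F2.card * 4 ≤ A.card * (A.card - 1) := by
    refine le_trans ?_ (h.Q_sum A (F.biUnion id))
    have e0 : ∑ v ∈ F.biUnion id, (Q G A v).card = ∑ O ∈ F, ∑ v ∈ O, (Q G A v).card :=
      sum_biUnion (t := id) fun O hO O' hO' hne => hdis O hO O' hO' hne
    rw [e0, c2]
    refine le_trans (add_le_add ?_ ?_) (Nat.add_le_add_left (Nat.le_add_right _ _) _)
    · rw [← smul_eq_mul]
      exact card_nsmul_le_sum _ _ _ fun O hO =>
        h.one (hOT O (m1 O hO).1) (hcl O (m1 O hO).1) (m1 O hO).2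
    · rw [← smul_eq_mul]
      exact card_nsmul_le_sum _ _ _ fun O hO =>
        h.three' (hOT O (m2 O hO).1) (hcl O (m2 O hO).1) (m2 O hO).2
  have ha : A.card ≤ 1 := arith (c0 := F1.card) (c1 := F2.card) (c2 := F3.card) (by omega)
    (by omega) (by omega)
  have hpos : ∀ O ∈ F, O.Nonempty := by
    intro O hO
    obtain ⟨k, hk⟩ := hodd O hO
    rw [← card_pos]
    omega
  obtain ⟨O, hO, O', hO', hne⟩ : ∃ O ∈ F, ∃ O' ∈ F, O ≠ O' := by
    have : 1 < F.card := by omega
    obtain ⟨O, hO, O', hO', hne⟩ := one_lt_card.1 this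
    exact ⟨O, hO, O', hO', hne⟩
  obtain ⟨x', hx'⟩ := hpos O' hO'
  have hx'O : x' ∉ O := fun hx => disjoint_left.1 (hdis O hO O' hO' hne) hx hx'
  rcases Nat.lt_or_ge A.card 1 with h0 | h0
  · have hAe : A = ∅ := card_eq_zero.1 (by omega)
    refine h.conn O (hOT O hO) (hpos O hO) ⟨x', mem_sdiff.2 ⟨hOT O' hO' hx', hx'O⟩⟩ ?_
    intro x hx y hxy
    rcases hcl O hO x hx y (h.mem _ _ hxy.symm) hxy with h1 | h1
    · exact h1
    · rw [hAe] at h1
      exact absurd h1 (notMem_empty _)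
  · obtain ⟨w, hw⟩ := card_eq_one.1 (show A.card = 1 by omega)
    have hwO : w ∉ O := fun hwO => (mem_sdiff.1 (hsub O hO hwO)).2 (by rw [hw]; simp)
    have hxw : x' ≠ w := by
      rintro rfl
      exact (mem_sdiff.1 (hsub O' hO' hx')).2 (by rw [hw]; simp)
    refine h.cutv w O (hOT O hO) hwO (hpos O hO)
      ⟨x', mem_erase.2 ⟨hxw, mem_sdiff.2 ⟨hOT O' hO' hx', hx'O⟩⟩⟩ ?_
    intro x hx y hxy
    rcases hcl O hO x hx y (h.mem _ _ hxy.symm) hxy with h1 | h1
    · exact Or.inl h1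
    · rw [hw, mem_singleton] at h1
      exact Or.inr h1

/-- the parity of a sum of odd numbers -/
theorem sum_mod (F : Finset (Finset V)) (hodd : ∀ O ∈ F, Odd O.card) :
    (∑ O ∈ F, O.card) % 2 = F.card % 2 := by
  rw [sum_nat_mod, sum_congr rfl fun O hO => Nat.odd_iff.1 (hodd O hO), sum_const, smul_eq_mul,
    mul_one]

/-- **The condition of the theorem of Tutte and Berge.** -/
theorem Dat.cond (h : Dat G T) (hn : 18 ≤ T.card) (A : Finset V) (F : Finset (Finset V))
    (hA : A ⊆ T) (hodd : ∀ O ∈ F, Odd O.card)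
    (hdis : ∀ O ∈ F, ∀ O' ∈ F, O ≠ O' → Disjoint O O') (hsub : ∀ O ∈ F, O ⊆ T \ A)
    (hcl : ∀ O ∈ F, Cl G T A O) : F.card ≤ A.card + (T.card - 18) := by
  classical
  by_contra hcon
  push Not at hcon
  set R := (T \ A) \ F.biUnion id with hR
  have hU : F.biUnion id ⊆ T \ A := by
    intro x hx
    obtain ⟨O, hO, hx⟩ := mem_biUnion.1 hx
    exact hsub O hO hx
  have e1 : (F.biUnion id).card = ∑ O ∈ F, O.card :=
    card_biUnion fun O hO O' hO' hne => hdis O hO O' hO' hne
  have e2 : R.card = T.card - A.card - ∑ O ∈ F, O.card := by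
    rw [hR, card_sdiff_of_subset hU, card_sdiff_of_subset hA, e1]
  have e3 : ∑ O ∈ F, O.card ≤ T.card - A.card := by
    rw [← e1, ← card_sdiff_of_subset hA]
    exact card_le_card hU
  have e4 := card_le_card hA
  have e5 := sum_mod F hodd
  by_cases hRo : Odd R.card
  · refine h.core hn (A := A) (F := insert R F) hA ?_ ?_ ?_ ?_ ?_
    · intro O hO
      rcases mem_insert.1 hO with rfl | hO
      · exact hRo
      · exact hodd O hO
    · have hRd : ∀ O ∈ F, Disjoint R O := by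
        intro O hO
        rw [disjoint_left]
        intro x hx hx'
        exact (mem_sdiff.1 hx).2 (mem_biUnion.2 ⟨O, hO, hx'⟩)
      intro O hO O' hO' hne
      rcases mem_insert.1 hO with h1 | hO <;> rcases mem_insert.1 hO' with h2 | hO'
      · exact absurd (h1.trans h2.symm) hne
      · rw [h1]; exact hRd O' hO'
      · rw [h2]; exact (hRd O hO).symm
      · exact hdis O hO O' hO' hne
    · intro O hO
      rcases mem_insert.1 hO with rfl | hO
      · exact sdiff_subset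
      · exact hsub O hO
    · intro O hO
      rcases mem_insert.1 hO with h1 | hO
      · rw [h1]
        intro x hx y hy hxy
        by_cases hyA : y ∈ A
        · exact Or.inr hyA
        · left
          refine mem_sdiff.2 ⟨mem_sdiff.2 ⟨hy, hyA⟩, fun hyU => ?_⟩
          obtain ⟨O, hO, hyO⟩ := mem_biUnion.1 hyU
          obtain ⟨hxT, hxU⟩ := mem_sdiff.1 hx
          obtain ⟨hxT, hxA⟩ := mem_sdiff.1 hxT
          rcases hcl O hO y hyO x hxT hxy.symm with h2 | h2
          · exact hxU (mem_biUnion.2 ⟨O, hO, h2⟩)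
          · exact hxA h2
      · exact hcl O hO
    · rw [card_insert_of_notMem]
      · omega
      · intro hRF
        obtain ⟨k, hk⟩ := hRo
        obtain ⟨x, hx⟩ : R.Nonempty := by
          rw [← card_pos]
          omega
        exact (mem_sdiff.1 hx).2 (mem_biUnion.2 ⟨R, hRF, hx⟩)
  · rw [Nat.not_odd_iff_even, Nat.even_iff] at hRo
    refine h.core hn hA hodd hdis hsub hcl ?_
    omega

/-- **Nine disjoint edges.** -/
theorem Dat.main (h : Dat G T) (hn : 18 ≤ T.card) :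
    ∃ (W : Finset V) (m : V → V), 18 ≤ W.card ∧
      ∀ x ∈ W, m x ∈ W ∧ m (m x) = x ∧ G.Adj x (m x) := by
  obtain ⟨U, m, hU, hUc, hm⟩ := H168DD.tutte_berge G T (T.card - 18)
    (by rw [Nat.even_iff]; omega) (h.cond hn)
  refine ⟨T \ U, m, ?_, hm⟩
  rw [card_sdiff_of_subset hU]
  omega

end Pool.Agent.Q253.M8
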