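import Pool.Agent.Q253.M8.Main

/-!
# The forms of the theorems used in the results
-/

set_option autoImplicit false
set_option linter.unusedSectionVars false

namespace Pool.Agent.Q253.M8

open Finset Pool.Agent.TH462.T4 Pool.Agent.TH676.T4 Pool.Agent.TH395.P5 Pool.Agent.Q253.VC

variable {V E : Type} [Fintype V] [DecidableEq V] [Fintype E] [DecidableEq E]

/-- **The translation to cycles.** -/
theorem cycles_of_flow {s d : E → V} (h : FlowOn s d ∅ ∅) :
    ∃ C₁ C₂ : Finset E, IsCycle s d C₁ ∧ IsCycle s d C₂ ∧ C₁ ∪ C₂ = Finset.univ := by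
  obtain ⟨f, hf, -, hf0⟩ := h
  refine ⟨univ.filter (fun e => (f e).1 ≠ 0), univ.filter (fun e => (f e).2 ≠ 0), ?_, ?_, ?_⟩
  · intro v
    refine TH443.P5.even_of_sum (fun e => (f e).1) v ?_
    have h1 := congrArg Prod.fst (hf v)
    unfold bd at h1
    rw [Prod.fst_sum] at h1
    refine Eq.trans ?_ h1
    · refine sum_congr rfl fun e _ => ?_
      rw [Prod.fst_add]
      split_ifs <;> rfl
  · intro v
    refine TH443.P5.even_of_sum (fun e => (f e).2) v ?_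
    have h1 := congrArg Prod.snd (hf v)
    unfold bd at h1
    rw [Prod.snd_sum] at h1
    refine Eq.trans ?_ h1
    · refine sum_congr rfl fun e _ => ?_
      rw [Prod.snd_add]
      split_ifs <;> rfl
  · ext e
    simp only [mem_union, mem_filter, mem_univ, true_and, iff_true]
    by_contra h
    push Not at h
    exact hf0 e (notMem_empty e) (notMem_empty e) (Prod.ext h.1 h.2)

theorem two_cycles (s d : E → V) (hm : Mt s d) (hiso : ∀ e, ¬ IsIsthmus s d e)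
    (hp : ¬ HasPetersenMinor s d) :
    ∃ C₁ C₂ : Finset E, IsCycle s d C₁ ∧ IsCycle s d C₂ ∧ C₁ ∪ C₂ = Finset.univ :=
  cycles_of_flow (flow_of_mt s d (TH443.P5.no_one_cut hiso)
    (fun h => hp (TH443.P5.pet_minor h)) hm)

/-- a Petersen minor in the sense of the matroid files -/
theorem pm_of_minor {src dst : E → V} (h : PetMinor src dst) :
    Pool.Agent.TH499.TF.PM src dst := by
  obtain ⟨B, b1, b2, b3⟩ := h
  refine ⟨fun s => B (Pool.Agent.TH443.P5.bt s.1), ?_, ?_, ?_⟩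
  · intro s A hA hAn hAne
    obtain ⟨e, he⟩ := (b1 (Pool.Agent.TH443.P5.bt s.1)).2 A hA hAn hAne
    rcases he with ⟨h3, h4⟩ | ⟨h3, h4⟩
    · exact ⟨e, src e, dst e, h3, (mem_sdiff.mp h4).1, (mem_sdiff.mp h4).2, Or.inl ⟨rfl, rfl⟩⟩
    · exact ⟨e, dst e, src e, h4, (mem_sdiff.mp h3).1, (mem_sdiff.mp h3).2, Or.inr ⟨rfl, rfl⟩⟩
  · intro s t hst
    apply b2
    intro h5
    exact hst (Subtype.ext (Pool.Agent.TH443.P5.bt_inj s.1 (Pool.Agent.TH443.P5.mem_psc s.2) t.1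
      (Pool.Agent.TH443.P5.mem_psc t.2) h5))
  · intro s t hst
    rcases Pool.Agent.TH443.P5.bt_adj s.1 (Pool.Agent.TH443.P5.mem_psc s.2) t.1
      (Pool.Agent.TH443.P5.mem_psc t.2) hst with h4 | h4
    · obtain ⟨e, he⟩ := b3 _ h4
      rcases he with ⟨h5, h6⟩ | ⟨h5, h6⟩
      · exact ⟨e, src e, dst e, h5, h6, Or.inl ⟨rfl, rfl⟩⟩
      · exact ⟨e, dst e, src e, h6, h5, Or.inr ⟨rfl, rfl⟩⟩
    · obtain ⟨e, he⟩ := b3 _ h4
      rcases he with ⟨h5, h6⟩ | ⟨h5, h6⟩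
      · exact ⟨e, dst e, src e, h6, h5, Or.inr ⟨rfl, rfl⟩⟩
      · exact ⟨e, src e, dst e, h5, h6, Or.inl ⟨rfl, rfl⟩⟩

theorem br_of {src dst : E → V}
    (hB : ∀ Y : Finset V, (Pool.Agent.TH499.TF.dlt src dst Y).card ≠ 1) : Br src dst ∅ ∅ := by
  intro Y _
  rw [sdiff_empty]
  exact hB Y

theorem nz_of {src dst : E → V} (h : FlowOn src dst ∅ ∅) : Pool.Agent.TH499.TF.NZ src dst := by
  obtain ⟨f, f1, _, f3⟩ := h
  exact ⟨f, fun e => f3 e (notMem_empty _) (notMem_empty _), fun x => f1 x⟩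

theorem cls8 {src dst : E → V} (hc : Mt src dst) (hPM : ¬ Pool.Agent.TH499.TF.PM src dst)
    (hB : ∀ Y : Finset V, (Pool.Agent.TH499.TF.dlt src dst Y).card ≠ 1) :
    Pool.Agent.TH499.TF.NZ src dst :=
  nz_of (flow_of_mt src dst (br_of hB) (fun h => hPM (pm_of_minor h)) hc)

end Pool.Agent.Q253.M8
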